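import Pool.Agent.H27.TM.TargetsG

/-!
# The twelfth moment: row KC (large values in a class)
-/

set_option autoImplicit false

open NumberField NumberField.InfinitePlace
open scoped nonZeroDivisors

namespace Pool.Agent.H97.TMB.KC

open Pool.Agent.H25.HK Pool.Agent.H23.LB Pool.Agent.H23.LC
open Pool.Agent.H27.TM
open Pool.Agent.H29.DW (dg Rl rv Pos)
open Pool.Agent.H31.SW (PP DD dK Pf)

private lemma one_le_dK (K : Type) [Field K] [NumberField K] : 1 ≤ dK K := by
  unfold Pool.Agent.H31.SW.dK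
  have h := Int.one_le_abs (discr_ne_zero K)
  exact_mod_cast h

private lemma one_le_PP {K : Type} [Field K] [NumberField K] (τ : InfinitePlace K → ℝ)
    (h : ∀ v, 1 ≤ τ v) : 1 ≤ PP τ := by
  classical
  unfold Pool.Agent.H31.SW.PP
  calc (1 : ℝ) = ∏ _v : InfinitePlace K, (1 : ℝ) := by simp
    _ ≤ ∏ v, τ v ^ v.mult := Finset.prod_le_prod (fun v _ => by norm_num)
        fun v _ => one_le_pow₀ (h v)

private lemma PP_rpow {K : Type} [Field K] [NumberField K] (τ : InfinitePlace K → ℝ)
    (θ : ℝ) (h : ∀ v, 1 ≤ τ v) : PP (fun v => τ v ^ θ) = PP τ ^ θ := by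
  classical
  unfold Pool.Agent.H31.SW.PP
  rw [← Real.finsetProd_rpow _ _ (fun v _ => pow_nonneg (by linarith [h v]) _)]
  apply Finset.prod_congr rfl
  intro v _
  have h0 : 0 ≤ τ v := by linarith [h v]
  rw [← Real.rpow_natCast, ← Real.rpow_natCast, ← Real.rpow_mul h0, ← Real.rpow_mul h0,
    mul_comm]

private lemma PP_pow {K : Type} [Field K] [NumberField K] (τ : InfinitePlace K → ℝ)
    (k : ℕ) : PP (fun v => τ v ^ k) = PP τ ^ k := by
  classical
  unfold Pool.Agent.H31.SW.PP
  rw [← Finset.prod_pow]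
  apply Finset.prod_congr rfl
  intro v _
  rw [← pow_mul, ← pow_mul, Nat.mul_comm]

theorem pf_KC (hBL : M_BL) (hCL : M_CL) (hTC : M_TC) : M_KC := by
  classical
  intro n ε p hn hε hp
  obtain ⟨C2, hC2, hBL⟩ := hBL n ε p hn hε hp
  obtain ⟨C4, hC4, hCL⟩ := hCL n hn
  obtain ⟨C3, hC3, hTC⟩ := hTC n hn
  have hC26 : 1 ≤ C2 ^ 6 := one_le_pow₀ hC2
  refine ⟨C3 * C4 * C2 ^ 6, ?_, ?_⟩
  · exact one_le_mul_of_one_le_of_one_le (one_le_mul_of_one_le_of_one_le hC3 hC4) hC26
  intro K _ _ hK L y ω r τ ι J c D V hL hω hJ hS hD hDD hV hVT hlarge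
  have hV6 : 1 ≤ V ^ 6 := one_le_pow₀ hV
  have hT : 1 ≤ PP τ := hV6.trans hVT
  have hdK := one_le_dK K
  set T : ℝ := PP τ with hTdef
  have hTε : 1 ≤ T ^ ε := Real.one_le_rpow hT hε.le
  set A : ℝ := D * dK K ^ 2 * T ^ ε with hA
  have hdK2 : 1 ≤ dK K ^ 2 := one_le_pow₀ hdK
  have hDd : 1 ≤ D * dK K ^ 2 := one_le_mul_of_one_le_of_one_le hD hdK2
  have hA1 : 1 ≤ A := one_le_mul_of_one_le_of_one_le hDd hTε
  have hDA : D ≤ A := by
    rw [hA]
    calc D = D * 1 * 1 := by ring
      _ ≤ D * dK K ^ 2 * T ^ ε := by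
          apply mul_le_mul _ hTε (by norm_num) (by positivity)
          exact mul_le_mul_of_nonneg_left hdK2 (by linarith)
  have hVpos : 0 < V := by linarith
  rcases J.eq_empty_or_nonempty with rfl | ⟨j₀, hj₀⟩
  · simp only [Finset.card_empty, Nat.cast_zero]
    positivity
  have hτ : ∀ v, 1 ≤ τ v := (hJ j₀ hj₀).one
  rcases le_or_gt (V ^ 2) (C2 * A) with hg | hg
  · have h1 := hTC K hK ι J c τ D hτ hJ hS
    have h2 : V ^ 12 ≤ C2 ^ 6 * A ^ 6 := by
      calc V ^ 12 = (V ^ 2) ^ 6 := by ring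
        _ ≤ (C2 * A) ^ 6 := pow_le_pow_left₀ (by positivity) hg 6
        _ = C2 ^ 6 * A ^ 6 := by ring
    have hV12 : 0 < V ^ 12 := by positivity
    calc (J.card : ℝ) ≤ C3 * (D * T) := h1
      _ ≤ C3 * (A * T ^ 2) := by
          apply mul_le_mul_of_nonneg_left _ (by linarith)
          apply mul_le_mul hDA _ (by linarith) (by linarith)
          nlinarith
      _ = C3 * (A * T ^ 2 * V ^ 12 / V ^ 12) := by
          rw [mul_div_assoc, div_self hV12.ne', mul_one]
      _ ≤ C3 * (A * T ^ 2 * (C2 ^ 6 * A ^ 6) / V ^ 12) := by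
          apply mul_le_mul_of_nonneg_left _ (by linarith)
          apply div_le_div_of_nonneg_right _ hV12.le
          exact mul_le_mul_of_nonneg_left h2 (by positivity)
      _ = C3 * C2 ^ 6 * (A ^ 7 * (T ^ 2 / V ^ 12)) := by ring
      _ ≤ C3 * C4 * C2 ^ 6 * (A ^ 7 * (T ^ 2 / V ^ 12)) := by
          apply mul_le_mul_of_nonneg_right _ (by positivity)
          apply mul_le_mul_of_nonneg_right _ (by positivity)
          exact le_mul_of_one_le_right (by linarith) hC4
  · set g : ℝ := V ^ 2 / (C2 * A) with hgdef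
    have hCA : 1 ≤ C2 * A := one_le_mul_of_one_le_of_one_le hC2 hA1
    have hCA0 : 0 < C2 * A := by linarith
    have hg1 : 1 < g := by
      rw [hgdef, lt_div_iff₀ hCA0, one_mul]
      exact hg
    have hgV : g ≤ V ^ 2 := by
      rw [hgdef]
      exact div_le_self (by positivity) hCA
    have hg3 : g ^ 3 ≤ T := by
      calc g ^ 3 ≤ (V ^ 2) ^ 3 := pow_le_pow_left₀ (by linarith) hgV 3
        _ = V ^ 6 := by ring
        _ ≤ T := hVT
    have hT1 : 1 < T := lt_of_lt_of_le (one_lt_pow₀ hg1 (by norm_num)) hg3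
    have hlogT : 0 < Real.log T := Real.log_pos hT1
    have hlogg : 0 < Real.log g := Real.log_pos hg1
    set θ : ℝ := Real.log g / Real.log T with hθ
    have hθ0 : 0 < θ := div_pos hlogg hlogT
    have hθ1 : 3 * θ ≤ 1 := by
      have h1 : Real.log (g ^ 3) ≤ Real.log T := Real.log_le_log (by positivity) hg3
      rw [Real.log_pow] at h1
      rw [hθ, mul_div_assoc', div_le_one hlogT]
      exact_mod_cast h1
    have hTθ : T ^ θ = g := by
      rw [Real.rpow_def_of_pos (by linarith), hθ, mul_div_cancel₀ _ hlogT.ne',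
        Real.exp_log (by linarith)]
    set G : InfinitePlace K → ℝ := fun v => τ v ^ θ with hG
    have hG1 : ∀ v, 1 ≤ G v := fun v => Real.one_le_rpow (hτ v) hθ0.le
    have hG3 : ∀ v, G v ^ 3 ≤ τ v := by
      intro v
      have h0 : 0 ≤ τ v := by linarith [hτ v]
      calc G v ^ 3 = τ v ^ (θ * 3) := by
            rw [hG, ← Real.rpow_natCast, ← Real.rpow_mul h0]
            norm_num
        _ ≤ τ v ^ (1 : ℝ) := Real.rpow_le_rpow_of_exponent_le (hτ v) (by linarith)
        _ = τ v := Real.rpow_one _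
    have hPG : PP G = g := by
      rw [hG, PP_rpow τ θ hτ, ← hTdef, hTθ]
    have hPG3 : PP (fun v => G v ^ 3) = g ^ 3 := by
      rw [PP_pow G 3, hPG]
    obtain ⟨bl, hbl1, hbl2⟩ := hCL K hK ι J c τ (fun v => G v ^ 3)
      (fun v => ⟨by have := hG1 v; positivity, hG3 v⟩)
      (fun j hj v => ⟨(hJ j hj).real v, by have := (hJ j hj).upp v; linarith⟩)
    rw [hPG3, ← hTdef] at hbl1
    have hfib : ∀ b ∈ J.image bl, ((J.filter fun j => bl j = b).card : ℝ) ≤
        C2 * (A ^ 2 * (T / (V ^ 4 * g))) := by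
      intro b _
      have h1 := hBL K hK L y ω r G τ ι (J.filter fun j => bl j = b) c D V hL hω
        (fun v => ⟨hG1 v, hG3 v⟩) (fun j hj => hJ j (Finset.mem_filter.mp hj).1) ?_ ?_ hD hDD
        hVpos ?_ (fun j hj => hlarge j (Finset.mem_filter.mp hj).1)
      · rw [hPG, ← hTdef] at h1
        exact h1
      · intro i hi j hj v
        rw [Finset.mem_filter] at hi hj
        exact hbl2 i hi.1 j hj.1 (hi.2.trans hj.2.symm) v
      · intro c₀
        refine le_trans ?_ (hS c₀)
        norm_cast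
        apply Finset.card_le_card
        intro j hj
        rw [Finset.mem_filter] at hj ⊢
        exact ⟨(Finset.mem_filter.mp hj.1).1, hj.2⟩
      · rw [hPG, ← hTdef, ← hA, hgdef]
        apply le_of_eq
        field_simp
    have hcard : (J.card : ℝ) = ∑ b ∈ J.image bl, ((J.filter fun j => bl j = b).card : ℝ) := by
      have := Finset.card_eq_sum_card_image bl J
      exact_mod_cast this
    have hg0 : 0 < g := by linarith
    have hT0 : 0 < T := by linarith
    have hA0 : 0 < A := by linarith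
    calc (J.card : ℝ) = ∑ b ∈ J.image bl, ((J.filter fun j => bl j = b).card : ℝ) := hcard
      _ ≤ ∑ _b ∈ J.image bl, C2 * (A ^ 2 * (T / (V ^ 4 * g))) := Finset.sum_le_sum hfib
      _ = ((J.image bl).card : ℝ) * (C2 * (A ^ 2 * (T / (V ^ 4 * g)))) := by
          rw [Finset.sum_const, nsmul_eq_mul]
      _ ≤ (C4 * (T / g ^ 3)) * (C2 * (A ^ 2 * (T / (V ^ 4 * g)))) :=
          mul_le_mul_of_nonneg_right hbl1 (by positivity)
      _ = C4 * C2 ^ 5 * (A ^ 6 * (T ^ 2 / V ^ 12)) := by
          rw [hgdef]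
          field_simp
      _ ≤ C3 * C4 * C2 ^ 6 * (A ^ 7 * (T ^ 2 / V ^ 12)) := by
          apply mul_le_mul
          · calc C4 * C2 ^ 5 = 1 * C4 * C2 ^ 5 := by ring
              _ ≤ C3 * C4 * C2 ^ 6 := by
                  apply mul_le_mul
                  · exact mul_le_mul_of_nonneg_right hC3 (by linarith)
                  · exact pow_le_pow_right₀ hC2 (by norm_num)
                  · positivity
                  · positivity
          · apply mul_le_mul_of_nonneg_right _ (by positivity)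
            exact pow_le_pow_right₀ hA1 (by norm_num)
          · positivity
          · positivity

end Pool.Agent.H97.TMB.KC
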