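import Pool.Agent.H27.TM.TargetsG

/-!
# The twelfth moment: row RP (representatives)
-/

set_option autoImplicit false

open NumberField NumberField.InfinitePlace
open scoped nonZeroDivisors

namespace Pool.Agent.H97.TMB.RP

open Pool.Agent.H27.TM
open Pool.Agent.H29.DW (dg Rl rv)
open Pool.Agent.H31.SW (PP)

-- the cell of a complex number
private noncomputable def ky (G : ℝ) (z : ℂ) : ℤ × ℤ := (⌊z.re / G⌋, ⌊z.im / G⌋)

private lemma floor_near (x y : ℝ) (h : |x - y| ≤ 1) : ⌊x⌋ ∈ Finset.Icc (⌊y⌋ - 1) (⌊y⌋ + 1) := by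
  rw [Finset.mem_Icc]
  have h1 := (abs_le.mp h).1
  have h2 := (abs_le.mp h).2
  constructor
  · rw [Int.le_floor]
    have := Int.floor_le y
    push_cast
    linarith
  · have : ⌊x⌋ ≤ ⌊y + 1⌋ := Int.floor_le_floor (by linarith)
    rwa [Int.floor_add_one] at this

private lemma same_floor (x y G : ℝ) (hG : 0 < G) (h : ⌊x / G⌋ = ⌊y / G⌋) : |x - y| ≤ G := by
  have h1 := Int.abs_sub_lt_one_of_floor_eq_floor h
  have h2 : x / G - y / G = (x - y) / G := by ring
  rw [h2, abs_div, abs_of_pos hG, div_lt_one hG] at h1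
  exact h1.le

theorem card_places (K : Type) [Field K] [NumberField K] (n : ℕ)
    (hn : Module.finrank ℚ K = n) : Fintype.card (InfinitePlace K) ≤ n := by
  classical
  rw [← hn, ← NumberField.InfinitePlace.sum_mult_eq]
  calc Fintype.card (InfinitePlace K) = ∑ _v : InfinitePlace K, 1 := by simp
    _ ≤ ∑ v : InfinitePlace K, v.mult := Finset.sum_le_sum fun v _ => by
        have := v.mult_pos
        omega

theorem pf_RP : M_RP := by
  classical
  intro n K _ _ hn ι J c G hG hR
  by_cases hJ : J.Nonempty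
  swap
  · rw [Finset.not_nonempty_iff_eq_empty] at hJ
    subst hJ
    refine ⟨∅, id, by simp, by simp, ?_⟩
    intro c₀
    simp
  obtain ⟨j₀, hj₀⟩ := hJ
  have : Nonempty ι := ⟨j₀⟩
  let q : ι → (InfinitePlace K → ℤ × ℤ) := fun j v => ky (G v) (c j v)
  let ρ : ι → ι := fun j => Function.invFunOn q (J : Set ι) (q j)
  have hρ : ∀ j ∈ J, ρ j ∈ J ∧ q (ρ j) = q j := by
    intro j hj
    have h1 : ∃ a ∈ (J : Set ι), q a = q j := ⟨j, hj, rfl⟩
    exact ⟨Function.invFunOn_mem h1, Function.invFunOn_eq h1⟩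
  refine ⟨J.image ρ, ρ, ?_, ?_, ?_⟩
  · intro i hi
    obtain ⟨j, hj, rfl⟩ := Finset.mem_image.mp hi
    exact (hρ j hj).1
  · intro j hj
    refine ⟨Finset.mem_image_of_mem _ hj, fun v => ?_⟩
    have h1 := congrFun (hρ j hj).2 v
    have h2 : ⌊(c (ρ j) v).re / G v⌋ = ⌊(c j v).re / G v⌋ := congrArg Prod.fst h1
    have h3 : ⌊(c (ρ j) v).im / G v⌋ = ⌊(c j v).im / G v⌋ := congrArg Prod.snd h1
    have h4 := same_floor _ _ _ (hG v) h2.symm
    have h5 := same_floor _ _ _ (hG v) h3.symm
    calc ‖c j v - c (ρ j) v‖ ≤ |(c j v - c (ρ j) v).re| + |(c j v - c (ρ j) v).im| :=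
          Complex.norm_le_abs_re_add_abs_im _
      _ ≤ G v + G v := by
          rw [Complex.sub_re, Complex.sub_im]
          linarith
      _ = 2 * G v := by ring
  · intro c₀
    have hinj : ∀ i ∈ J.image ρ, ∀ i' ∈ J.image ρ, q i = q i' → i = i' := by
      intro i hi i' hi' h
      obtain ⟨j, hj, rfl⟩ := Finset.mem_image.mp hi
      obtain ⟨j', hj', rfl⟩ := Finset.mem_image.mp hi'
      rw [(hρ j hj).2, (hρ j' hj').2] at h
      show Function.invFunOn q (J : Set ι) (q j) = Function.invFunOn q (J : Set ι) (q j')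
      rw [h]
    let box : InfinitePlace K → Finset (ℤ × ℤ) := fun v =>
      Finset.Icc (⌊(c₀ v).re / G v⌋ - 1) (⌊(c₀ v).re / G v⌋ + 1) ×ˢ
        Finset.Icc (⌊(c₀ v).im / G v⌋ - 1) (⌊(c₀ v).im / G v⌋ + 1)
    have hcard : (Fintype.piFinset box).card ≤ 9 ^ n := by
      rw [Fintype.card_piFinset]
      calc ∏ v : InfinitePlace K, (box v).card ≤ ∏ _v : InfinitePlace K, 9 := by
            apply Finset.prod_le_prod' fun v _ => ?_
            show (Finset.Icc (⌊(c₀ v).re / G v⌋ - 1) (⌊(c₀ v).re / G v⌋ + 1) ×ˢ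
              Finset.Icc (⌊(c₀ v).im / G v⌋ - 1) (⌊(c₀ v).im / G v⌋ + 1)).card ≤ 9
            rw [Finset.card_product, Int.card_Icc, Int.card_Icc]
            have h1 : (⌊(c₀ v).re / G v⌋ + 1 + 1 - (⌊(c₀ v).re / G v⌋ - 1)).toNat = 3 := by
              have : ⌊(c₀ v).re / G v⌋ + 1 + 1 - (⌊(c₀ v).re / G v⌋ - 1) = 3 := by ring
              rw [this]; rfl
            have h2 : (⌊(c₀ v).im / G v⌋ + 1 + 1 - (⌊(c₀ v).im / G v⌋ - 1)).toNat = 3 := by
              have : ⌊(c₀ v).im / G v⌋ + 1 + 1 - (⌊(c₀ v).im / G v⌋ - 1) = 3 := by ring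
              rw [this]; rfl
            rw [h1, h2]
        _ = 9 ^ Fintype.card (InfinitePlace K) := by
            rw [Finset.prod_const, Finset.card_univ]
        _ ≤ 9 ^ n := Nat.pow_le_pow_right (by norm_num) (card_places K n hn)
    have hle : ((J.image ρ).filter fun j => ∀ v, ‖c j v - c₀ v‖ ≤ G v).card ≤
        (Fintype.piFinset box).card := by
      apply Finset.card_le_card_of_injOn q
      · intro i hi
        rw [Finset.mem_coe, Finset.mem_filter] at hi
        rw [Finset.mem_coe, Fintype.mem_piFinset]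
        intro v
        have h1 := hi.2 v
        have h2 : |(c i v).re - (c₀ v).re| ≤ G v := by
          rw [← Complex.sub_re]
          exact (Complex.abs_re_le_norm _).trans h1
        have h3 : |(c i v).im - (c₀ v).im| ≤ G v := by
          rw [← Complex.sub_im]
          exact (Complex.abs_im_le_norm _).trans h1
        show (⌊(c i v).re / G v⌋, ⌊(c i v).im / G v⌋) ∈ _ ×ˢ _
        rw [Finset.mem_product]
        refine ⟨floor_near _ _ ?_, floor_near _ _ ?_⟩
        · rw [← sub_div, abs_div, abs_of_pos (hG v)]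
          exact (div_le_one (hG v)).mpr h2
        · rw [← sub_div, abs_div, abs_of_pos (hG v)]
          exact (div_le_one (hG v)).mpr h3
      · intro i hi i' hi' h
        rw [Finset.mem_coe, Finset.mem_filter] at hi hi'
        exact hinj i hi.1 i' hi'.1 h
    have hfin : (((J.image ρ).filter fun j => ∀ v, ‖c j v - c₀ v‖ ≤ G v).card : ℝ) ≤
        ((9 ^ n : ℕ) : ℝ) := by
      exact_mod_cast hle.trans hcard
    push_cast at hfin
    exact hfin

end Pool.Agent.H97.TMB.RP
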