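import Pool.Agent.H27.TM.TargetsG

/-!
# The twelfth moment: row SM (sums over spaced frequencies)
-/

set_option autoImplicit false

open NumberField NumberField.InfinitePlace
open scoped nonZeroDivisors

namespace Pool.Agent.H97.TMB.SM

open Pool.Agent.H27.TM
open Pool.Agent.H29.DW (dg Rl rv)
open Pool.Agent.H31.SW (PP)

-- the weight of an integer
private noncomputable def wt (β : ℝ) (a : ℤ) : ℝ := (1 + β * |(a : ℝ)|) ^ (-2 : ℤ)

private lemma wt_nonneg (β : ℝ) (hβ : 0 ≤ β) (a : ℤ) : 0 ≤ wt β a := by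
  unfold wt; positivity

private lemma sum_nat (β : ℝ) (hβ : 0 < β) (N : ℕ) :
    ∑ a ∈ Finset.range N, (1 + β * ((a : ℝ) + 1)) ^ (-2 : ℤ) ≤
      (1 / β) * (1 - 1 / (1 + β * N)) := by
  induction N with
  | zero => simp
  | succ N ih =>
    rw [Finset.sum_range_succ]
    have h0 : 0 < 1 + β * (N : ℝ) := by positivity
    have h1 : 0 < 1 + β * ((N : ℝ) + 1) := by positivity
    have hstep : (1 + β * ((N : ℝ) + 1)) ^ (-2 : ℤ) ≤
        (1 / β) * (1 / (1 + β * N) - 1 / (1 + β * ((N : ℝ) + 1))) := by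
      have e1 : (1 / β) * (1 / (1 + β * (N : ℝ)) - 1 / (1 + β * ((N : ℝ) + 1))) =
          1 / ((1 + β * (N : ℝ)) * (1 + β * ((N : ℝ) + 1))) := by
        field_simp
        ring
      rw [e1, zpow_neg, ← one_div]
      apply one_div_le_one_div_of_le (by positivity)
      have : (1 + β * ((N : ℝ) + 1)) ^ (2 : ℤ) =
          (1 + β * ((N : ℝ) + 1)) * (1 + β * ((N : ℝ) + 1)) := by
        rw [zpow_ofNat]; ring
      rw [this]
      apply mul_le_mul_of_nonneg_right _ h1.le
      nlinarith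
    push_cast
    have e2 : (1 / β) * (1 - 1 / (1 + β * ((N : ℝ) + 1))) =
        (1 / β) * (1 - 1 / (1 + β * N)) +
          (1 / β) * (1 / (1 + β * N) - 1 / (1 + β * ((N : ℝ) + 1))) := by ring
    rw [e2]
    linarith

private lemma sum_nat_le (β : ℝ) (hβ : 0 < β) (N : ℕ) :
    ∑ a ∈ Finset.range N, (1 + β * ((a : ℝ) + 1)) ^ (-2 : ℤ) ≤ 1 / β := by
  refine (sum_nat β hβ N).trans ?_
  have h : 0 ≤ 1 / (1 + β * (N : ℝ)) := by positivity
  have h2 : 0 < 1 / β := by positivity
  nlinarith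

private lemma sum_union_le (A B : Finset ℤ) (f : ℤ → ℝ) (hf : ∀ a, 0 ≤ f a) :
    ∑ a ∈ A ∪ B, f a ≤ ∑ a ∈ A, f a + ∑ a ∈ B, f a := by
  have h := Finset.sum_union_inter (s₁ := A) (s₂ := B) (f := f)
  have h2 : 0 ≤ ∑ a ∈ A ∩ B, f a := Finset.sum_nonneg fun a _ => hf a
  linarith

private lemma sum_int (β : ℝ) (hβ : 0 < β) (hβ1 : β ≤ 1) (S : Finset ℤ) :
    ∑ a ∈ S, wt β a ≤ 3 / β := by
  classical
  obtain ⟨N, hN⟩ : ∃ N : ℕ, ∀ a ∈ S, a.natAbs ≤ N := by
    refine ⟨S.sup Int.natAbs, fun a ha => Finset.le_sup (f := Int.natAbs) ha⟩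
  have hsub : S ⊆ ({0} : Finset ℤ) ∪
      ((Finset.range N).image (fun a : ℕ => ((a : ℤ) + 1)) ∪
        (Finset.range N).image (fun a : ℕ => -((a : ℤ) + 1))) := by
    intro a ha
    have h1 := hN a ha
    rw [Finset.mem_union, Finset.mem_union, Finset.mem_singleton, Finset.mem_image,
      Finset.mem_image]
    rcases lt_trichotomy a 0 with h | h | h
    · right; right
      exact ⟨a.natAbs - 1, Finset.mem_range.mpr (by omega), by omega⟩
    · left; exact h
    · right; left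
      exact ⟨a.natAbs - 1, Finset.mem_range.mpr (by omega), by omega⟩
  calc ∑ a ∈ S, wt β a ≤ ∑ a ∈ ({0} : Finset ℤ) ∪
      ((Finset.range N).image (fun a : ℕ => ((a : ℤ) + 1)) ∪
        (Finset.range N).image (fun a : ℕ => -((a : ℤ) + 1))), wt β a :=
        Finset.sum_le_sum_of_subset_of_nonneg hsub fun a _ _ => wt_nonneg β hβ.le a
    _ ≤ ∑ a ∈ ({0} : Finset ℤ), wt β a +
        (∑ a ∈ (Finset.range N).image (fun a : ℕ => ((a : ℤ) + 1)), wt β a +
          ∑ a ∈ (Finset.range N).image (fun a : ℕ => -((a : ℤ) + 1)), wt β a) := by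
        refine (sum_union_le _ _ _ fun a => wt_nonneg β hβ.le a).trans ?_
        exact add_le_add le_rfl (sum_union_le _ _ _ fun a => wt_nonneg β hβ.le a)
    _ ≤ 1 + (1 / β + 1 / β) := by
        gcongr
        · simp [wt]
        · rw [Finset.sum_image (by intro a _ b _ h; simpa using h)]
          refine le_trans (le_of_eq ?_) (sum_nat_le β hβ N)
          apply Finset.sum_congr rfl
          intro a _
          unfold wt
          push_cast
          rw [abs_of_nonneg (by positivity)]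
        · rw [Finset.sum_image (by intro a _ b _ h; simpa using h)]
          refine le_trans (le_of_eq ?_) (sum_nat_le β hβ N)
          apply Finset.sum_congr rfl
          intro a _
          unfold wt
          push_cast
          rw [abs_neg, abs_of_nonneg (by positivity)]
    _ ≤ 3 / β := by
        have : 1 ≤ 1 / β := by rw [le_div_iff₀ hβ]; linarith
        have e : 3 / β = 1 / β + (1 / β + 1 / β) := by ring
        rw [e]; linarith

-- the cell of a complex number
private noncomputable def ky (G : ℝ) (z : ℂ) : ℤ × ℤ := (⌊z.re / G⌋, ⌊z.im / G⌋)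

private lemma floor_abs (x G : ℝ) (hG : 0 < G) : G * (|((⌊x / G⌋ : ℤ) : ℝ)| - 1) ≤ |x| := by
  have h1 := Int.floor_le (x / G)
  have h2 := Int.lt_floor_add_one (x / G)
  have h3 : x / G * G = x := by field_simp
  have h4 : |x| = |x / G| * G := by
    rw [abs_div, abs_of_pos hG]
    field_simp
  rw [h4]
  have h5 : |((⌊x / G⌋ : ℤ) : ℝ)| - 1 ≤ |x / G| := by
    rcases le_or_gt 0 ⌊x / G⌋ with h | h
    · have h' : (0 : ℝ) ≤ ((⌊x / G⌋ : ℤ) : ℝ) := by exact_mod_cast h
      rw [abs_of_nonneg h']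
      have := le_abs_self (x / G)
      linarith
    · have h' : ((⌊x / G⌋ : ℤ) : ℝ) < 0 := by exact_mod_cast h
      rw [abs_of_neg h']
      have := neg_le_abs (x / G)
      linarith
  nlinarith

-- the local comparison
private lemma loc_le (α G : ℝ) (hα : 0 < α) (hG : 0 < G) (h1 : α * G ≤ 1) (z : ℂ) :
    (1 + α * ‖z‖) ^ (-(4 : ℝ)) ≤
      16 * (wt (α * G) (ky G z).1 * wt (α * G) (ky G z).2) := by
  have hpos : 0 < α * G := mul_pos hα hG
  have hz : 0 < 1 + α * ‖z‖ := by positivity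
  have key : ∀ a : ℤ, ∀ x : ℝ, G * (|(a : ℝ)| - 1) ≤ |x| → |x| ≤ ‖z‖ →
      1 + (α * G) * |(a : ℝ)| ≤ 2 * (1 + α * ‖z‖) := by
    intro a x h h'
    have h2 : α * (G * (|(a : ℝ)| - 1)) ≤ α * ‖z‖ :=
      mul_le_mul_of_nonneg_left (h.trans h') hα.le
    have h3 : 0 ≤ α * ‖z‖ := by positivity
    nlinarith
  have hw : ∀ a : ℤ, 1 + (α * G) * |(a : ℝ)| ≤ 2 * (1 + α * ‖z‖) →
      (1 + α * ‖z‖) ^ (-2 : ℤ) ≤ 4 * wt (α * G) a := by
    intro a h
    unfold wt
    have hp : 0 < 1 + (α * G) * |(a : ℝ)| := by positivity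
    rw [zpow_neg, zpow_neg, zpow_ofNat, zpow_ofNat]
    have h5 : (1 + (α * G) * |(a : ℝ)|) ^ 2 ≤ 4 * (1 + α * ‖z‖) ^ 2 := by
      calc (1 + (α * G) * |(a : ℝ)|) ^ 2 ≤ (2 * (1 + α * ‖z‖)) ^ 2 :=
            pow_le_pow_left₀ hp.le h 2
        _ = 4 * (1 + α * ‖z‖) ^ 2 := by ring
    rw [← div_eq_mul_inv, inv_eq_one_div, div_le_div_iff₀ (by positivity) (by positivity)]
    linarith
  have hA := hw _ (key (ky G z).1 z.re (floor_abs z.re G hG) (Complex.abs_re_le_norm z))
  have hB := hw _ (key (ky G z).2 z.im (floor_abs z.im G hG) (Complex.abs_im_le_norm z))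
  have e : (1 + α * ‖z‖) ^ (-(4 : ℝ)) =
      (1 + α * ‖z‖) ^ (-2 : ℤ) * (1 + α * ‖z‖) ^ (-2 : ℤ) := by
    rw [← zpow_add₀ hz.ne', ← Real.rpow_intCast]
    norm_num
  rw [e]
  calc (1 + α * ‖z‖) ^ (-2 : ℤ) * (1 + α * ‖z‖) ^ (-2 : ℤ) ≤
      (4 * wt (α * G) (ky G z).1) * (4 * wt (α * G) (ky G z).2) := by
        apply mul_le_mul hA hB (by positivity)
        have := wt_nonneg (α * G) hpos.le (ky G z).1
        positivity
    _ = 16 * (wt (α * G) (ky G z).1 * wt (α * G) (ky G z).2) := by ring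

-- sums over finite sets of cells
private lemma sum_cells (β : ℝ) (hβ : 0 < β) (hβ1 : β ≤ 1) (S : Finset (ℤ × ℤ)) :
    ∑ x ∈ S, 16 * (wt β x.1 * wt β x.2) ≤ 144 / β ^ 2 := by
  classical
  have h1 : S ⊆ S.image Prod.fst ×ˢ S.image Prod.snd := by
    intro x hx
    rw [Finset.mem_product]
    exact ⟨Finset.mem_image_of_mem _ hx, Finset.mem_image_of_mem _ hx⟩
  have hA := sum_int β hβ hβ1 (S.image Prod.fst)
  have hB := sum_int β hβ hβ1 (S.image Prod.snd)
  have hnn : ∀ x : ℤ × ℤ, 0 ≤ wt β x.1 * wt β x.2 := fun x =>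
    mul_nonneg (wt_nonneg β hβ.le _) (wt_nonneg β hβ.le _)
  rw [← Finset.mul_sum]
  calc 16 * ∑ x ∈ S, wt β x.1 * wt β x.2 ≤
      16 * ∑ x ∈ S.image Prod.fst ×ˢ S.image Prod.snd, wt β x.1 * wt β x.2 := by
        apply mul_le_mul_of_nonneg_left _ (by norm_num)
        exact Finset.sum_le_sum_of_subset_of_nonneg h1 fun x _ _ => hnn x
    _ = 16 * ((∑ a ∈ S.image Prod.fst, wt β a) * ∑ b ∈ S.image Prod.snd, wt β b) := by
        rw [Finset.sum_product, Finset.sum_mul_sum]
    _ ≤ 16 * ((3 / β) * (3 / β)) := by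
        apply mul_le_mul_of_nonneg_left _ (by norm_num)
        apply mul_le_mul hA hB (Finset.sum_nonneg fun b _ => wt_nonneg β hβ.le b)
        positivity
    _ = 144 / β ^ 2 := by
        field_simp
        norm_num

private lemma sum_cells_real (β : ℝ) (hβ : 0 < β) (hβ1 : β ≤ 1) (S : Finset (ℤ × ℤ))
    (hS : ∀ x ∈ S, x.2 = 0) :
    ∑ x ∈ S, 16 * (wt β x.1 * wt β x.2) ≤ 144 / β := by
  classical
  have h1 : ∑ x ∈ S, 16 * (wt β x.1 * wt β x.2) = ∑ a ∈ S.image Prod.fst, 16 * wt β a := by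
    rw [Finset.sum_image]
    · apply Finset.sum_congr rfl
      intro x hx
      rw [hS x hx]
      simp [wt]
    · intro x hx y hy h
      exact Prod.ext h ((hS x hx).trans (hS y hy).symm)
  rw [h1, ← Finset.mul_sum]
  have hA := sum_int β hβ hβ1 (S.image Prod.fst)
  calc 16 * ∑ a ∈ S.image Prod.fst, wt β a ≤ 16 * (3 / β) :=
        mul_le_mul_of_nonneg_left hA (by norm_num)
    _ ≤ 144 / β := by
        rw [mul_div_assoc', div_le_div_iff_of_pos_right hβ]
        norm_num

private lemma same_cell (z : ℂ) (G : ℝ) (hG : 0 < G) (a b : ℤ) (hz : ky G z = (a, b)) :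
    ‖z - (((a : ℝ) * G + G / 2 : ℝ) + ((b : ℝ) * G + G / 2 : ℝ) * Complex.I)‖ ≤ G := by
  have h1 : ⌊z.re / G⌋ = a := congrArg Prod.fst hz
  have h2 : ⌊z.im / G⌋ = b := congrArg Prod.snd hz
  have e1 := Int.floor_le (z.re / G)
  have e2 := Int.lt_floor_add_one (z.re / G)
  have e3 := Int.floor_le (z.im / G)
  have e4 := Int.lt_floor_add_one (z.im / G)
  rw [h1] at e1 e2
  rw [h2] at e3 e4
  rw [le_div_iff₀ hG] at e1 e3
  rw [div_lt_iff₀ hG] at e2 e4
  refine (Complex.norm_le_abs_re_add_abs_im _).trans ?_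
  have f1 : |(z - (((a : ℝ) * G + G / 2 : ℝ) + ((b : ℝ) * G + G / 2 : ℝ) * Complex.I)).re| ≤
      G / 2 := by
    simp only [Complex.sub_re, Complex.add_re, Complex.ofReal_re, Complex.mul_re,
      Complex.I_re, Complex.I_im, Complex.ofReal_im]
    rw [abs_le]
    constructor <;> linarith
  have f2 : |(z - (((a : ℝ) * G + G / 2 : ℝ) + ((b : ℝ) * G + G / 2 : ℝ) * Complex.I)).im| ≤
      G / 2 := by
    simp only [Complex.sub_im, Complex.add_im, Complex.ofReal_re, Complex.mul_im,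
      Complex.I_re, Complex.I_im, Complex.ofReal_im]
    rw [abs_le]
    constructor <;> linarith
  linarith

private lemma card_places (K : Type) [Field K] [NumberField K] (n : ℕ)
    (hn : Module.finrank ℚ K = n) : Fintype.card (InfinitePlace K) ≤ n := by
  classical
  rw [← hn, ← NumberField.InfinitePlace.sum_mult_eq]
  calc Fintype.card (InfinitePlace K) = ∑ _v : InfinitePlace K, 1 := by simp
    _ ≤ ∑ v : InfinitePlace K, v.mult := Finset.sum_le_sum fun v _ => by
        have := v.mult_pos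
        omega

private lemma place_le {K : Type} [Field K] [NumberField K] (v : InfinitePlace K) (β : ℝ)
    (hβ : 0 < β) (hβ1 : β ≤ 1) (S : Finset (ℤ × ℤ)) (hS : v.IsReal → ∀ x ∈ S, x.2 = 0) :
    ∑ x ∈ S, 16 * (wt β x.1 * wt β x.2) ≤ 144 / β ^ v.mult := by
  by_cases h : v.IsReal
  · rw [show v.mult = 1 from by simp [InfinitePlace.mult, h], pow_one]
    exact sum_cells_real β hβ hβ1 S (hS h)
  · rw [show v.mult = 2 from by simp [InfinitePlace.mult, h]]
    exact sum_cells β hβ hβ1 S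

theorem pf_SM : M_SM := by
  classical
  intro n hn
  refine ⟨144 ^ n, one_le_pow₀ (by norm_num), ?_⟩
  intro K _ _ hK ι I c G α D hR hG hS i hi
  have hβ : ∀ v, 0 < α v * G v := fun v => mul_pos (hG v).1 (hG v).2.1
  let q : ι → (InfinitePlace K → ℤ × ℤ) := fun j v => ky (G v) (c j v - c i v)
  let h : InfinitePlace K → ℤ × ℤ → ℝ := fun v x =>
    16 * (wt (α v * G v) x.1 * wt (α v * G v) x.2)
  have hh : ∀ v x, 0 ≤ h v x := fun v x => by
    have h1 := wt_nonneg (α v * G v) (hβ v).le x.1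
    have h2 := wt_nonneg (α v * G v) (hβ v).le x.2
    show 0 ≤ 16 * (wt (α v * G v) x.1 * wt (α v * G v) x.2)
    positivity
  have hprod : ∀ k : InfinitePlace K → ℤ × ℤ, 0 ≤ ∏ v, h v (k v) := fun k =>
    Finset.prod_nonneg fun v _ => hh v (k v)
  let S : InfinitePlace K → Finset (ℤ × ℤ) := fun v => I.image fun j => q j v
  have hD : 0 ≤ D := le_trans (Nat.cast_nonneg _) (hS (c i))
  have step1 : ∑ j ∈ I, ∏ v : InfinitePlace K, th1 α (c i) (c j) v ^ (-(4 : ℝ)) ≤
      ∑ j ∈ I, ∏ v, h v (q j v) := by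
    apply Finset.sum_le_sum
    intro j _
    apply Finset.prod_le_prod
    · intro v _
      have : 0 < α v := (hG v).1
      unfold th1
      positivity
    · intro v _
      have := loc_le (α v) (G v) (hG v).1 (hG v).2.1 (hG v).2.2 (c j v - c i v)
      unfold th1
      rw [norm_sub_rev]
      exact this
  have step2 : ∑ j ∈ I, ∏ v, h v (q j v) ≤ D * ∑ k ∈ I.image q, ∏ v, h v (k v) := by
    rw [Finset.sum_comp (f := fun k : InfinitePlace K → ℤ × ℤ => ∏ v, h v (k v)) (g := q),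
      Finset.mul_sum]
    apply Finset.sum_le_sum
    intro k _
    rw [nsmul_eq_mul]
    apply mul_le_mul_of_nonneg_right _ (hprod k)
    have hc := hS (fun v => c i v + (((k v).1 * G v + G v / 2 : ℝ) +
      ((k v).2 * G v + G v / 2 : ℝ) * Complex.I))
    refine le_trans ?_ hc
    norm_cast
    apply Finset.card_le_card
    intro j hj
    rw [Finset.mem_filter] at hj ⊢
    refine ⟨hj.1, fun v => ?_⟩
    have e1 : ky (G v) (c j v - c i v) = ((k v).1, (k v).2) := congrFun hj.2 v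
    have e2 := same_cell (c j v - c i v) (G v) (hG v).2.1 _ _ e1
    rw [sub_sub] at e2
    exact e2
  have step3 : ∑ k ∈ I.image q, ∏ v, h v (k v) ≤ ∏ v, ∑ x ∈ S v, h v x := by
    rw [Finset.prod_univ_sum]
    apply Finset.sum_le_sum_of_subset_of_nonneg
    · intro k hk
      obtain ⟨j, hj, rfl⟩ := Finset.mem_image.mp hk
      rw [Fintype.mem_piFinset]
      intro v
      exact Finset.mem_image_of_mem (fun j => q j v) hj
    · intro k _ _
      exact hprod k
  have step4 : ∏ v, ∑ x ∈ S v, h v x ≤ ∏ v : InfinitePlace K, 144 / (α v * G v) ^ v.mult := by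
    apply Finset.prod_le_prod
    · intro v _
      exact Finset.sum_nonneg fun x _ => hh v x
    · intro v _
      refine place_le v (α v * G v) (hβ v) (hG v).2.2 (S v) ?_
      intro hv x hx
      obtain ⟨j, hj, rfl⟩ := Finset.mem_image.mp hx
      show ⌊(c j v - c i v).im / G v⌋ = 0
      have hrv : rv v = true := by
        unfold Pool.Agent.H29.DW.rv
        simp [hv]
      have h1 : (c j v).im = 0 := hR j hj v hrv
      have h2 : (c i v).im = 0 := hR i hi v hrv
      rw [Complex.sub_im, h1, h2]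
      simp
  have step5 : ∏ v : InfinitePlace K, 144 / (α v * G v) ^ v.mult =
      144 ^ Fintype.card (InfinitePlace K) / (PP α * PP G) := by
    rw [Finset.prod_div_distrib, Finset.prod_const, Finset.card_univ]
    unfold Pool.Agent.H31.SW.PP
    rw [← Finset.prod_mul_distrib]
    congr 1
    apply Finset.prod_congr rfl
    intro v _
    rw [mul_pow]
  have hPP : 0 < PP α * PP G := by
    unfold Pool.Agent.H31.SW.PP
    apply mul_pos
    · exact Finset.prod_pos fun v _ => pow_pos (hG v).1 _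
    · exact Finset.prod_pos fun v _ => pow_pos (hG v).2.1 _
  calc ∑ j ∈ I, ∏ v : InfinitePlace K, th1 α (c i) (c j) v ^ (-(4 : ℝ)) ≤
      D * ∑ k ∈ I.image q, ∏ v, h v (k v) := step1.trans step2
    _ ≤ D * (144 ^ Fintype.card (InfinitePlace K) / (PP α * PP G)) := by
        apply mul_le_mul_of_nonneg_left _ hD
        rw [← step5]
        exact step3.trans step4
    _ ≤ D * (144 ^ n / (PP α * PP G)) := by
        apply mul_le_mul_of_nonneg_left _ hD
        apply div_le_div_of_nonneg_right _ hPP.le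
        exact pow_le_pow_right₀ (by norm_num) (card_places K n hK)
    _ = 144 ^ n * D / (PP α * PP G) := by ring

end Pool.Agent.H97.TMB.SM
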